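import Mathlib

set_option autoImplicit false

namespace Pool.Agent.Results.MP_72856e_co.Counter

open Finset SimpleGraph

/-- the clique graph: maximal cliques, adjacent when distinct and intersecting -/
def cliqueGraph {V : Type} (G : SimpleGraph V) :
    SimpleGraph {Q : Set V // Maximal G.IsClique Q} :=
  SimpleGraph.fromRel fun Q R => (Q.1 ∩ R.1).Nonempty

/-- D is a dominating set -/
def Dominating {V : Type} (G : SimpleGraph V) (D : Set V) : Prop :=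
  ∀ v, v ∉ D → ∃ u ∈ D, G.Adj v u

abbrev W := Fin 5 × Fin 4

def mem (i : Fin 5) (x : W) : Prop := x.1 = i ∨ (x.1 + 1 = i ∧ x.2 ≠ 0)

instance (i : Fin 5) (x : W) : Decidable (mem i x) := by unfold mem; infer_instance

def G : SimpleGraph W where
  Adj x y := x ≠ y ∧ ∃ i, mem i x ∧ mem i y
  symm := ⟨fun _ _ ⟨h, i, a, b⟩ => ⟨h.symm, i, b, a⟩⟩
  loopless := ⟨fun _ h => h.1 rfl⟩

instance : DecidableRel G.Adj := fun x y =>
  inferInstanceAs (Decidable (x ≠ y ∧ ∃ i, mem i x ∧ mem i y))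

def Q (i : Fin 5) : Set W := {x | mem i x}

lemma Q_clique (i : Fin 5) : G.IsClique (Q i) := fun _ hx _ hy h => ⟨h, i, hx, hy⟩

lemma k1 : ∀ x y z : W, G.Adj x y → x.1 + 1 = y.1 → (z = x ∨ G.Adj x z) → (z = y ∨ G.Adj y z) →
    mem y.1 z := by decide +kernel

lemma k2 : ∀ x y : W, G.Adj x y → x.1 = y.1 ∨ x.1 + 1 = y.1 ∨ y.1 + 1 = x.1 := by decide +kernel

lemma sub_Q (S : Set W) (hS : G.IsClique S) : ∃ i, S ⊆ Q i := by
  by_cases h : ∃ x ∈ S, ∃ y ∈ S, x.1 + 1 = y.1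
  · obtain ⟨x, hx, y, hy, e⟩ := h
    have hxy : x ≠ y := by
      rintro rfl
      revert e; generalize x.1 = a; revert a; decide
    refine ⟨y.1, fun z hz => k1 x y z (hS hx hy hxy) e ?_ ?_⟩
    · by_cases h : z = x
      exacts [Or.inl h, Or.inr (hS hx hz (Ne.symm h))]
    · by_cases h : z = y
      exacts [Or.inl h, Or.inr (hS hy hz (Ne.symm h))]
  · rcases S.eq_empty_or_nonempty with rfl | ⟨x, hx⟩
    · exact ⟨0, Set.empty_subset _⟩
    refine ⟨x.1, fun z hz => Or.inl ?_⟩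
    by_cases e : z = x
    · rw [e]
    rcases k2 z x (hS hz hx e) with h1 | h1 | h1
    exacts [h1, absurd ⟨z, hz, x, hx, h1⟩ h, absurd ⟨x, hx, z, hz, h1⟩ h]

lemma priv : ∀ i j : Fin 5, mem j (i, 0) → j = i := by decide

lemma Q_max (i : Fin 5) : Maximal G.IsClique (Q i) := by
  refine ⟨Q_clique i, fun S hS h => ?_⟩
  obtain ⟨j, hj⟩ := sub_Q S hS
  have : j = i := priv i j (hj (h (Or.inl rfl : mem i (i, 0))))
  exact this ▸ hj

lemma max_Q (S : Set W) (hS : Maximal G.IsClique S) : ∃ i, S = Q i := by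
  obtain ⟨i, hi⟩ := sub_Q S hS.1
  exact ⟨i, hS.eq_of_le (Q_clique i) hi⟩

lemma Q_card (i : Fin 5) : (Q i).ncard = 7 := by
  have : Q i = ↑(univ.filter (mem i)) := by ext x; simp [Q]
  rw [this, Set.ncard_coe_finset]
  clear this; revert i; decide +kernel

lemma inter : ∀ i j : Fin 5, (i ≠ j ∧ ∃ x, mem i x ∧ mem j x) ↔ (cycleGraph 5).Adj i j := by
  decide +kernel

noncomputable def iso : cycleGraph 5 ≃g cliqueGraph G where
  toEquiv := Equiv.ofBijective (fun i => ⟨Q i, Q_max i⟩) ⟨fun i j h => by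
    have h' : Q i = Q j := congrArg Subtype.val h
    have : (i, (0 : Fin 4)) ∈ Q j := h' ▸ (Or.inl rfl : mem i (i, 0))
    exact (priv i j this).symm, fun S => by
    obtain ⟨i, hi⟩ := max_Q S.1 S.2
    exact ⟨i, Subtype.ext hi.symm⟩⟩
  map_rel_iff' := by
    intro i j
    rw [← inter]
    simp only [Equiv.ofBijective_apply, cliqueGraph, fromRel_adj]
    constructor
    · rintro ⟨h, ⟨x, a, b⟩ | ⟨x, a, b⟩⟩
      exacts [⟨fun e => h (by rw [e]), x, a, b⟩, ⟨fun e => h (by rw [e]), x, b, a⟩]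
    · rintro ⟨h, x, a, b⟩
      refine ⟨fun e => h ?_, Or.inl ⟨x, a, b⟩⟩
      have h' : Q i = Q j := congrArg Subtype.val e
      have : (i, (0 : Fin 4)) ∈ Q j := h' ▸ (Or.inl rfl : mem i (i, 0))
      exact (priv i j this).symm

lemma k3 : ∀ (i : Fin 5) (u : W), G.Adj (i, 0) u → mem i u := by decide +kernel

lemma k4 : ∀ a b : W, ∃ i, ¬ mem i a ∧ ¬ mem i b := by decide +kernel

lemma dom3 (D : Finset W) (h : Dominating G D) : 3 ≤ #D := by
  by_contra hc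
  have hit : ∀ i, ∃ u ∈ D, mem i u := by
    intro i
    by_cases h1 : (i, (0 : Fin 4)) ∈ D
    · exact ⟨_, h1, Or.inl rfl⟩
    · obtain ⟨u, hu, ha⟩ := h _ h1
      exact ⟨u, hu, k3 i u ha⟩
  obtain ⟨a, ha, -⟩ := hit 0
  obtain ⟨i, hi, -⟩ := k4 a a
  obtain ⟨b, hb, hbi⟩ := hit i
  obtain ⟨j, h1, h2⟩ := k4 a b
  obtain ⟨c, hc', hcj⟩ := hit j
  refine hc (two_lt_card.2 ⟨a, ha, b, hb, c, hc', ?_, ?_, ?_⟩)
  · rintro rfl; exact hi hbi
  · rintro rfl; exact h1 hcj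
  · rintro rfl; exact h2 hcj

theorem result : ∃ (V : Type) (_ : Fintype V) (G : SimpleGraph V) (n c : ℕ), Odd n ∧ 3 ≤ n ∧
    Nonempty (cycleGraph n ≃g cliqueGraph G) ∧
    IsLeast {k | ∃ Q : Set V, Maximal G.IsClique Q ∧ Q.ncard = k} c ∧
    ∀ (k : ℕ) (f : V → Fin k), (∀ i, Dominating G {v | f v = i}) → k < c := by
  refine ⟨W, inferInstance, G, 5, 7, by decide, by decide, ⟨iso⟩,
    ⟨⟨Q 0, Q_max 0, Q_card 0⟩, ?_⟩, fun k f hf => ?_⟩
  · rintro k ⟨S, hS, rfl⟩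
    obtain ⟨i, rfl⟩ := max_Q S hS
    rw [Q_card]
  · have h1 : ∀ i, 3 ≤ #(univ.filter fun v => f v = i) := fun i =>
      dom3 _ (by simpa using hf i)
    have h2 := card_eq_sum_card_fiberwise (s := (univ : Finset W)) (f := f) (t := univ) (by simp)
    have h3 := sum_le_sum fun i (_ : i ∈ (univ : Finset (Fin k))) => h1 i
    rw [← h2] at h3
    simp at h3
    omega

end Pool.Agent.Results.MP_72856e_co.Counter
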